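import Mathlib

/-!
The cyclic configuration `(13_3)` with lines `{l+1, l+3, l+9}` (mod 13) is flag-transitive and
geometrically realizable, and none of its realizations has a non-trivial symmetry.
-/

set_option autoImplicit false

namespace Pool.Agent.Results.MP_f8f7ac_co.FlagTransitive13

/-- The real Euclidean plane. -/
abbrev Plane : Type := EuclideanSpace ℝ (Fin 2)

/-- `I` (point, line) is the incidence relation of a combinatorial configuration `(n_3)`. -/
structure IsConfig {n : ℕ} (I : Fin n → Fin n → Prop) : Prop where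
  point_deg : ∀ p, {l | I p l}.ncard = 3
  line_deg : ∀ l, {p | I p l}.ncard = 3
  unique_line : ∀ p q l m, p ≠ q → I p l → I q l → I p m → I q m → l = m

/-- A pair of bijections of points and of lines preserving incidence in both directions. -/
def IsAut {n : ℕ} (I : Fin n → Fin n → Prop) (σ τ : Equiv.Perm (Fin n)) : Prop :=
  ∀ p l, I (σ p) (τ l) ↔ I p l

def PointTransitive {n : ℕ} (I : Fin n → Fin n → Prop) : Prop :=
  ∀ p q, ∃ σ τ, IsAut I σ τ ∧ σ p = q

def LineTransitive {n : ℕ} (I : Fin n → Fin n → Prop) : Prop :=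
  ∀ l m, ∃ σ τ, IsAut I σ τ ∧ τ l = m

def FlagTransitive {n : ℕ} (I : Fin n → Fin n → Prop) : Prop :=
  ∀ p l q m, I p l → I q m → ∃ σ τ, IsAut I σ τ ∧ σ p = q ∧ τ l = m

/-- Distinct points, distinct straight lines, and exactly the prescribed incidences. -/
structure IsRealization {n : ℕ} (I : Fin n → Fin n → Prop) (x : Fin n → Plane)
    (L : Fin n → AffineSubspace ℝ Plane) : Prop where
  point_inj : Function.Injective x
  line_inj : Function.Injective L
  is_line : ∀ l, Module.finrank ℝ (L l).direction = 1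
  incident : ∀ p l, x p ∈ L l ↔ I p l

/-- An isometry of the plane mapping the set of realized points onto itself and the set of
realized lines onto itself. -/
structure IsSymmetry {n : ℕ} (x : Fin n → Plane) (L : Fin n → AffineSubspace ℝ Plane)
    (T : Plane → Plane) : Prop where
  isometry : Isometry T
  points : T '' Set.range x = Set.range x
  lines : (fun s : Set Plane => T '' s) '' Set.range (fun l => (L l : Set Plane)) =
    Set.range (fun l => (L l : Set Plane))

/-- Incidence of the cyclic configuration. -/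
def inc (p l : Fin 13) : Prop := p = l + 1 ∨ p = l + 3 ∨ p = l + 9

instance (p l : Fin 13) : Decidable (inc p l) := by unfold inc; infer_instance

/-- Three distinct points on a common line. -/
def col (a b c : Fin 13) : Bool :=
  decide (a ≠ b ∧ a ≠ c ∧ b ≠ c ∧ ∃ l, inc a l ∧ inc b l ∧ inc c l)

/-- The values `s1, …, s12` are those of the affine map `i ↦ a i + s0`. -/
def aff (a s0 s1 s2 s3 s4 s5 s6 s7 s8 s9 s10 s11 s12 : Fin 13) : Bool :=
  [s1, s2, s3, s4, s5, s6, s7, s8, s9, s10, s11, s12] ==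
    [a * 1 + s0, a * 2 + s0, a * 3 + s0, a * 4 + s0, a * 5 + s0, a * 6 + s0, a * 7 + s0,
      a * 8 + s0, a * 9 + s0, a * 10 + s0, a * 11 + s0, a * 12 + s0]

/-- Exhaustive search. -/
def search : Bool :=
  let U := List.finRange 13
  U.all fun s0 => U.all fun s2 => U.all fun s8 => !(col s0 s2 s8) ||
  U.all fun s11 => U.all fun s6 => !(col s0 s6 s11) || s11 == s2 || s11 == s8 ||
  U.all fun s5 => U.all fun s7 => !(col s0 s5 s7) || s5 == s2 || s5 == s8 || s5 == s6 ||
    s5 == s11 ||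
  U.all fun s9 => !(col s2 s7 s9) ||
  U.all fun s1 => !(col s1 s6 s8) ||
  U.all fun s4 => !(col s4 s9 s11) ||
  U.all fun s3 => !(col s3 s5 s11) || !(col s1 s3 s9) ||
  U.all fun s10 => !(col s2 s4 s10) || !(col s3 s8 s10) ||
  U.all fun s12 => !(col s1 s7 s12) || !(col s5 s10 s12) || !(col s4 s6 s12) ||
    aff 1 s0 s1 s2 s3 s4 s5 s6 s7 s8 s9 s10 s11 s12 ||
    aff 3 s0 s1 s2 s3 s4 s5 s6 s7 s8 s9 s10 s11 s12 ||
    aff 9 s0 s1 s2 s3 s4 s5 s6 s7 s8 s9 s10 s11 s12

theorem search_true : search = true := by decide +kernel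

theorem classify : ∀ s0 s2 s8 : Fin 13, col s0 s2 s8 = true →
    ∀ s11 s6 : Fin 13, col s0 s6 s11 = true → s11 ≠ s2 → s11 ≠ s8 →
    ∀ s5 s7 : Fin 13, col s0 s5 s7 = true → s5 ≠ s2 → s5 ≠ s8 → s5 ≠ s6 → s5 ≠ s11 →
    ∀ s9 : Fin 13, col s2 s7 s9 = true →
    ∀ s1 : Fin 13, col s1 s6 s8 = true →
    ∀ s4 : Fin 13, col s4 s9 s11 = true →
    ∀ s3 : Fin 13, col s3 s5 s11 = true → col s1 s3 s9 = true →
    ∀ s10 : Fin 13, col s2 s4 s10 = true → col s3 s8 s10 = true →
    ∀ s12 : Fin 13, col s1 s7 s12 = true → col s5 s10 s12 = true → col s4 s6 s12 = true →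
    ∃ a : Fin 13, (a = 1 ∨ a = 3 ∨ a = 9) ∧ s1 = a * 1 + s0 ∧ s2 = a * 2 + s0 ∧
      s3 = a * 3 + s0 ∧ s4 = a * 4 + s0 ∧ s5 = a * 5 + s0 ∧ s6 = a * 6 + s0 ∧ s7 = a * 7 + s0 ∧
      s8 = a * 8 + s0 ∧ s9 = a * 9 + s0 ∧ s10 = a * 10 + s0 ∧ s11 = a * 11 + s0 ∧
      s12 = a * 12 + s0 := by
  intro s0 s2 s8 h1 s11 s6 h2 n1 n2 s5 s7 h3 n3 n4 n5 n6 s9 h4 s1 h5 s4 h6 s3 h7 h8 s10 h9 h10
    s12 h11 h12 h13
  have H := search_true
  simp only [search, List.all_eq_true, List.mem_finRange, forall_const, Bool.or_eq_true,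
    Bool.not_eq_eq_eq_not, Bool.not_true, beq_iff_eq] at H
  have H1 := (H s0 s2 s8).resolve_left (by simp [h1])
  have H2 := (H1 s11 s6).resolve_left (by simp [h2, n1, n2])
  have H3 := (H2 s5 s7).resolve_left (by simp [h3, n3, n4, n5, n6])
  have H4 := (H3 s9).resolve_left (by simp [h4])
  have H5 := (H4 s1).resolve_left (by simp [h5])
  have H6 := (H5 s4).resolve_left (by simp [h6])
  have H7 := (H6 s3).resolve_left (by simp [h7, h8])
  have H8 := (H7 s10).resolve_left (by simp [h9, h10])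
  have H9 := H8 s12
  simp only [h11, h12, h13, Bool.true_eq_false, false_or, aff, beq_iff_eq, List.cons.injEq,
    and_true] at H9
  rcases H9 with (H | H) | H
  · exact ⟨1, Or.inl rfl, H⟩
  · exact ⟨3, Or.inr (Or.inl rfl), H⟩
  · exact ⟨9, Or.inr (Or.inr rfl), H⟩

theorem orbit : ∀ a b : Fin 13, (a = 1 ∨ a = 3 ∨ a = 9) → (a = 1 ∧ b = 0) ∨
    ∃ l m n : Fin 13, (fun i => a * i + b)^[m.val] (l + 1) = l + 3 ∧
      (fun i => a * i + b)^[n.val] (l + 1) = l + 9 := by
  decide +kernel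

/-- Every injective map sending lines into lines is affine with multiplier `1`, `3` or `9`. -/
theorem affine_of_col (σ : Fin 13 → Fin 13) (hσ : Function.Injective σ)
    (h : ∀ l, ∃ m, ∀ p, inc p l → inc (σ p) m) :
    ∃ a : Fin 13, (a = 1 ∨ a = 3 ∨ a = 9) ∧ ∀ i, σ i = a * i + σ 0 := by
  have hc : ∀ a b c : Fin 13, col a b c = true → col (σ a) (σ b) (σ c) = true := by
    intro a b c habc
    simp only [col, decide_eq_true_eq] at habc ⊢
    obtain ⟨h1, h2, h3, l, h4, h5, h6⟩ := habc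
    obtain ⟨m, hm⟩ := h l
    exact ⟨hσ.ne h1, hσ.ne h2, hσ.ne h3, m, hm _ h4, hm _ h5, hm _ h6⟩
  obtain ⟨a, ha, e1, e2, e3, e4, e5, e6, e7, e8, e9, e10, e11, e12⟩ :=
    classify (σ 0) (σ 2) (σ 8) (hc _ _ _ (by decide)) (σ 11) (σ 6) (hc _ _ _ (by decide))
      (hσ.ne (by decide)) (hσ.ne (by decide)) (σ 5) (σ 7) (hc _ _ _ (by decide))
      (hσ.ne (by decide)) (hσ.ne (by decide)) (hσ.ne (by decide)) (hσ.ne (by decide))
      (σ 9) (hc _ _ _ (by decide)) (σ 1) (hc _ _ _ (by decide)) (σ 4) (hc _ _ _ (by decide))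
      (σ 3) (hc _ _ _ (by decide)) (hc _ _ _ (by decide))
      (σ 10) (hc _ _ _ (by decide)) (hc _ _ _ (by decide))
      (σ 12) (hc _ _ _ (by decide)) (hc _ _ _ (by decide)) (hc _ _ _ (by decide))
  refine ⟨a, ha, fun i => ?_⟩
  fin_cases i
  · simp
  all_goals assumption

/-- On an affine subspace of dimension one, every point is on the line through two given ones. -/
theorem exists_param (S : AffineSubspace ℝ Plane) (hS : Module.finrank ℝ S.direction = 1)
    (p q r : Plane) (hp : p ∈ S) (hq : q ∈ S) (hr : r ∈ S) (hpq : p ≠ q) :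
    ∃ t : ℝ, r = p + t • (q - p) := by
  have h1 : q - p ∈ S.direction := AffineSubspace.vsub_mem_direction hq hp
  have h2 : r - p ∈ S.direction := AffineSubspace.vsub_mem_direction hr hp
  have h3 : (⟨q - p, h1⟩ : S.direction) ≠ 0 := by
    intro h
    have : q - p = 0 := congrArg Subtype.val h
    exact hpq (sub_eq_zero.1 this).symm
  obtain ⟨t, ht⟩ := (finrank_eq_one_iff_of_nonzero' _ h3).1 hS ⟨r - p, h2⟩
  refine ⟨t, ?_⟩
  have : t • (q - p) = r - p := congrArg Subtype.val ht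
  rw [this]; abel

theorem dist_sq (p q : Plane) : dist p q ^ 2 = (p 0 - q 0) ^ 2 + (p 1 - q 1) ^ 2 := by
  rw [EuclideanSpace.dist_eq, Real.sq_sqrt (by positivity), Fin.sum_univ_two, Real.dist_eq,
    Real.dist_eq, sq_abs, sq_abs]

theorem plane_ext {p q : Plane} (h0 : p 0 = q 0) (h1 : p 1 = q 1) : p = q := by
  ext i; fin_cases i
  · exact h0
  · exact h1

/-- The sum of the squared distances to 13 points takes no value three times on a line. -/
theorem not_three (x : Fin 13 → Plane) (p q : Plane) (t : ℝ) (hpq : p ≠ q)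
    (h1 : ∑ j, dist q (x j) ^ 2 = ∑ j, dist p (x j) ^ 2)
    (h2 : ∑ j, dist (p + t • (q - p)) (x j) ^ 2 = ∑ j, dist p (x j) ^ 2) : t = 0 ∨ t = 1 := by
  set u0 := q 0 - p 0 with hu0
  set u1 := q 1 - p 1 with hu1
  have hu : 0 < u0 ^ 2 + u1 ^ 2 := by
    by_contra hn
    have a0 : u0 = 0 := by nlinarith [sq_nonneg u0, sq_nonneg u1]
    have a1 : u1 = 0 := by nlinarith [sq_nonneg u0, sq_nonneg u1]
    exact hpq (plane_ext (by linarith) (by linarith))
  have key : ∀ s : ℝ, ∑ j, dist (p + s • (q - p)) (x j) ^ 2 = ∑ j, dist p (x j) ^ 2 +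
      2 * s * (∑ j, ((p 0 - x j 0) * u0 + (p 1 - x j 1) * u1)) + 13 * s ^ 2 * (u0 ^ 2 + u1 ^ 2) := by
    intro s
    have : ∀ j, dist (p + s • (q - p)) (x j) ^ 2 = dist p (x j) ^ 2 +
        2 * s * ((p 0 - x j 0) * u0 + (p 1 - x j 1) * u1) + s ^ 2 * (u0 ^ 2 + u1 ^ 2) := by
      intro j
      rw [dist_sq, dist_sq]
      simp only [PiLp.add_apply, PiLp.smul_apply, PiLp.sub_apply, smul_eq_mul]
      rw [← hu0, ← hu1]; ring
    simp only [this, Finset.sum_add_distrib, ← Finset.mul_sum, Finset.sum_const, Finset.card_univ,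
      Fintype.card_fin, nsmul_eq_mul]
    push_cast
    ring
  have k1 := key 1
  rw [one_smul, add_sub_cancel, h1] at k1
  have k2 := key t
  rw [h2] at k2
  set S := ∑ j, ((p 0 - x j 0) * u0 + (p 1 - x j 1) * u1)
  have : t * (t - 1) * (13 * (u0 ^ 2 + u1 ^ 2)) = 0 := by linear_combination t * k1 - k2
  rcases mul_eq_zero.1 this with h | h
  · rcases mul_eq_zero.1 h with h | h
    · exact Or.inl h
    · exact Or.inr (by linarith)
  · exact absurd h (by positivity)

theorem no_symmetry (x : Fin 13 → Plane) (L : Fin 13 → AffineSubspace ℝ Plane)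
    (hR : IsRealization inc x L) (T : Plane → Plane) (hT : IsSymmetry x L T) : T = id := by
  have hx : ∀ i, ∃ j, x j = T (x i) := fun i => by
    have : T (x i) ∈ Set.range x := hT.points ▸ ⟨x i, ⟨i, rfl⟩, rfl⟩
    exact this
  choose σ hσ using hx
  have hinj : Function.Injective σ := fun i j e =>
    hR.point_inj (hT.isometry.injective (by rw [← hσ, ← hσ, e]))
  have hl : ∀ l, ∃ m, ∀ p, inc p l → inc (σ p) m := fun l => by
    have : T '' (L l : Set Plane) ∈ Set.range (fun l => (L l : Set Plane)) :=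
      hT.lines ▸ ⟨L l, ⟨l, rfl⟩, rfl⟩
    obtain ⟨m, hm⟩ := this
    refine ⟨m, fun p hp => (hR.incident _ _).1 ?_⟩
    have h1 : T (x p) ∈ T '' (L l : Set Plane) := ⟨x p, (hR.incident _ _).2 hp, rfl⟩
    rw [← hm, ← hσ] at h1
    exact h1
  obtain ⟨a, ha, haff⟩ := affine_of_col σ hinj hl
  have hg : ∀ i, ∑ j, dist (x (σ i)) (x j) ^ 2 = ∑ j, dist (x i) (x j) ^ 2 := by
    intro i
    rw [← (Equiv.ofBijective σ (Finite.injective_iff_bijective.1 hinj)).sum_comp]
    refine Finset.sum_congr rfl fun j _ => ?_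
    rw [Equiv.ofBijective_apply, hσ, hσ, hT.isometry.dist_eq]
  have hg' : ∀ (n : ℕ) i, ∑ j, dist (x (σ^[n] i)) (x j) ^ 2 = ∑ j, dist (x i) (x j) ^ 2 := by
    intro n i
    induction n with
    | zero => rfl
    | succ n ih => rw [Function.iterate_succ_apply', hg, ih]
  have hfun : σ = fun i => a * i + σ 0 := funext haff
  rcases orbit a (σ 0) ha with ⟨h1, h0⟩ | ⟨l, m, n, hm, hn⟩
  · have hid : ∀ i, T (x i) = x i := fun i => by
      rw [← hσ, haff, h1, h0]; simp
    funext y
    by_contra hne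
    have hd : ∀ i, dist (T y) (x i) ^ 2 = dist y (x i) ^ 2 := fun i => by
      conv_lhs => rw [← hid i]
      rw [hT.isometry.dist_eq]
    have d0 := hd 0
    have d1 := hd 1
    have d3 := hd 3
    rw [dist_sq, dist_sq] at d0 d1 d3
    have h13 : x 1 ≠ x 3 := hR.point_inj.ne (by decide)
    have m1 : x 1 ∈ L 0 := (hR.incident _ _).2 (by decide)
    have m3 : x 3 ∈ L 0 := (hR.incident _ _).2 (by decide)
    have n0 : x 0 ∉ L 0 := fun h => absurd ((hR.incident _ _).1 h) (by decide)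
    apply n0
    set z0 := T y 0 - y 0 with hz0
    set z1 := T y 1 - y 1 with hz1
    have e3 : z0 * (x 3 0 - x 1 0) + z1 * (x 3 1 - x 1 1) = 0 := by
      rw [hz0, hz1]; linear_combination (d1 - d3) / 2
    have e0 : z0 * (x 0 0 - x 1 0) + z1 * (x 0 1 - x 1 1) = 0 := by
      rw [hz0, hz1]; linear_combination (d1 - d0) / 2
    have hz : z0 ≠ 0 ∨ z1 ≠ 0 := by
      by_contra hc
      push Not at hc
      exact hne (plane_ext (by simp only [id]; linarith [hc.1]) (by simp only [id]; linarith [hc.2]))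
    have det : (x 3 0 - x 1 0) * (x 0 1 - x 1 1) = (x 3 1 - x 1 1) * (x 0 0 - x 1 0) := by
      rcases hz with h | h
      · apply mul_left_cancel₀ h
        linear_combination (x 0 1 - x 1 1) * e3 - (x 3 1 - x 1 1) * e0
      · apply mul_left_cancel₀ h
        linear_combination (x 3 0 - x 1 0) * e0 - (x 0 0 - x 1 0) * e3
    have hu : x 3 0 - x 1 0 ≠ 0 ∨ x 3 1 - x 1 1 ≠ 0 := by
      by_contra hc
      push Not at hc
      exact h13 (plane_ext (by linarith [hc.1]) (by linarith [hc.2]))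
    obtain ⟨t, ht⟩ : ∃ t : ℝ, x 0 = AffineMap.lineMap (x 1) (x 3) t := by
      rcases hu with h | h
      · refine ⟨(x 0 0 - x 1 0) / (x 3 0 - x 1 0), plane_ext ?_ ?_⟩ <;>
        simp only [AffineMap.lineMap_apply, vsub_eq_sub, vadd_eq_add, PiLp.add_apply,
          PiLp.smul_apply, PiLp.sub_apply, smul_eq_mul] <;> field_simp <;> linarith
      · refine ⟨(x 0 1 - x 1 1) / (x 3 1 - x 1 1), plane_ext ?_ ?_⟩ <;>
        simp only [AffineMap.lineMap_apply, vsub_eq_sub, vadd_eq_add, PiLp.add_apply,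
          PiLp.smul_apply, PiLp.sub_apply, smul_eq_mul] <;> field_simp <;> linarith
    rw [ht]
    exact AffineMap.lineMap_mem t m1 m3
  · exfalso
    rw [← hfun] at hm hn
    have g3 := hg' m (l + 1)
    have g9 := hg' n (l + 1)
    rw [hm] at g3
    rw [hn] at g9
    have ne : ∀ l : Fin 13, l + 1 ≠ l + 3 ∧ l + 9 ≠ l + 1 ∧ l + 9 ≠ l + 3 := by decide
    have h13 : x (l + 1) ≠ x (l + 3) := hR.point_inj.ne (ne l).1
    obtain ⟨t, ht⟩ := exists_param (L l) (hR.is_line l) (x (l + 1)) (x (l + 3)) (x (l + 9))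
      ((hR.incident _ _).2 (Or.inl rfl)) ((hR.incident _ _).2 (Or.inr (Or.inl rfl)))
      ((hR.incident _ _).2 (Or.inr (Or.inr rfl))) h13
    rcases not_three x _ _ t h13 g3 (by rw [← ht]; exact g9) with h | h
    · rw [h, zero_smul, add_zero] at ht
      exact (ne l).2.1 (hR.point_inj ht)
    · rw [h, one_smul, add_sub_cancel] at ht
      exact (ne l).2.2 (hR.point_inj ht)

/-- Integer coordinates of a realization. -/
def cx : Fin 13 → ℤ := ![45, 66, 65, 75, 45, 55, 0, 75, 60, 60, 55, 15, 55]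
/-- Integer coordinates of a realization. -/
def cy : Fin 13 → ℤ := ![0, 27, 36, 0, 36, 6, 27, 18, 27, 45, 36, 18, 38]

/-- The realized points. -/
noncomputable def pt (i : Fin 13) : Plane := !₂[(cx i : ℝ), (cy i : ℝ)]

theorem coords_inj : ∀ i j : Fin 13, cx i = cx j → cy i = cy j → i = j := by decide +kernel

theorem coords_det : ∀ p l : Fin 13,
    (cx (l + 3) - cx (l + 1)) * (cy p - cy (l + 1)) = (cy (l + 3) - cy (l + 1)) * (cx p - cx (l + 1))
      ↔ inc p l := by decide +kernel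

theorem pt_inj : Function.Injective pt := fun i j e => by
  have h0 : (cx i : ℝ) = cx j := by simpa [pt] using congrArg (fun v : Plane => v 0) e
  have h1 : (cy i : ℝ) = cy j := by simpa [pt] using congrArg (fun v : Plane => v 1) e
  exact coords_inj i j (by exact_mod_cast h0) (by exact_mod_cast h1)

theorem mem_line_iff (p q r : Plane) (hpq : p ≠ q) : r ∈ line[ℝ, p, q] ↔
    (q 0 - p 0) * (r 1 - p 1) = (q 1 - p 1) * (r 0 - p 0) := by
  rw [mem_affineSpan_pair_iff_exists_lineMap_eq]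
  constructor
  · rintro ⟨t, rfl⟩
    simp only [AffineMap.lineMap_apply, vsub_eq_sub, vadd_eq_add, PiLp.add_apply,
      PiLp.smul_apply, PiLp.sub_apply, smul_eq_mul]
    ring
  · intro det
    have hu : q 0 - p 0 ≠ 0 ∨ q 1 - p 1 ≠ 0 := by
      by_contra hc
      push Not at hc
      exact hpq (plane_ext (by linarith [hc.1]) (by linarith [hc.2]))
    rcases hu with h | h
    · refine ⟨(r 0 - p 0) / (q 0 - p 0), plane_ext ?_ ?_⟩ <;>
      simp only [AffineMap.lineMap_apply, vsub_eq_sub, vadd_eq_add, PiLp.add_apply,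
        PiLp.smul_apply, PiLp.sub_apply, smul_eq_mul] <;> field_simp <;> linarith
    · refine ⟨(r 1 - p 1) / (q 1 - p 1), plane_ext ?_ ?_⟩ <;>
      simp only [AffineMap.lineMap_apply, vsub_eq_sub, vadd_eq_add, PiLp.add_apply,
        PiLp.smul_apply, PiLp.sub_apply, smul_eq_mul] <;> field_simp <;> linarith

theorem realization : IsRealization inc pt (fun l => line[ℝ, pt (l + 1), pt (l + 3)]) := by
  have ne : ∀ l : Fin 13, l + 1 ≠ l + 3 := by decide
  have hinc : ∀ p l : Fin 13, pt p ∈ line[ℝ, pt (l + 1), pt (l + 3)] ↔ inc p l := by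
    intro p l
    rw [mem_line_iff _ _ _ (pt_inj.ne (ne l)), ← coords_det]
    simp only [pt, Matrix.cons_val_zero, Matrix.cons_val_one]
    norm_cast
  refine ⟨pt_inj, ?_, ?_, hinc⟩
  · intro l m e
    have key : ∀ l m : Fin 13, (∀ p, inc p l ↔ inc p m) → l = m := by decide +kernel
    refine key l m fun p => ?_
    have e' : line[ℝ, pt (l + 1), pt (l + 3)] = line[ℝ, pt (m + 1), pt (m + 3)] := e
    rw [← hinc, ← hinc, e']
  · intro l
    rw [direction_affineSpan, vectorSpan_pair]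
    exact finrank_span_singleton (vsub_ne_zero.2 (pt_inj.ne (ne l)))

/-- The affine permutation `i ↦ a i + b`, with `a * c = 1`. -/
def affPerm (a c b : Fin 13) (h : a * c = 1) : Equiv.Perm (Fin 13) where
  toFun i := a * i + b
  invFun i := c * (i - b)
  left_inv i := by
    show c * (a * i + b - b) = i
    rw [add_sub_cancel_right, ← mul_assoc, mul_comm c a, h, one_mul]
  right_inv i := by
    have : ∀ a c : Fin 13, a * c = 1 → ∀ i b : Fin 13, a * (c * (i - b)) + b = i := by
      intro a c h i b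
      rw [← mul_assoc, h, one_mul, sub_add_cancel]
    exact this a c h i b

theorem flag : FlagTransitive inc := by
  intro p l q m hp hq
  have key : ∀ p l : Fin 13, inc p l → ∀ q m : Fin 13, inc q m → ∃ a : Fin 13,
      (a = 1 ∨ a = 3 ∨ a = 9) ∧ a * l + (q - a * p) = m ∧ a * p + (q - a * p) = q ∧
      a * (a * a) = 1 := by decide +kernel
  have key2 : ∀ a b : Fin 13, (a = 1 ∨ a = 3 ∨ a = 9) → ∀ p l,
      (inc (a * p + b) (a * l + b) ↔ inc p l) := by decide +kernel
  obtain ⟨a, h3, h2, h1, h⟩ := key p l hp q m hq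
  exact ⟨affPerm a _ (q - a * p) h, affPerm a _ (q - a * p) h, fun p' l' => key2 a (q - a * p) h3 p' l', h1, h2⟩

theorem config : IsConfig inc := by
  refine ⟨fun p => ?_, fun l => ?_, by decide +kernel⟩
  · have : {l | inc p l} = ↑(Finset.univ.filter fun l => inc p l) := by simp
    rw [this, Set.ncard_coe_finset]
    clear this
    revert p; decide +kernel
  · have : {p | inc p l} = ↑(Finset.univ.filter fun p => inc p l) := by simp
    rw [this, Set.ncard_coe_finset]
    clear this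
    revert l; decide +kernel

theorem result : ∃ (n : ℕ) (I : Fin n → Fin n → Prop), IsConfig I ∧
    PointTransitive I ∧ LineTransitive I ∧ FlagTransitive I ∧
    (∃ x L, IsRealization I x L) ∧
    ∀ x L, IsRealization I x L → ∀ T, IsSymmetry x L T → T = id := by
  refine ⟨13, inc, config, ?_, ?_, flag, ⟨_, _, realization⟩, no_symmetry⟩
  · intro p q
    obtain ⟨σ, τ, h, h1, -⟩ := flag p (p - 1) q (q - 1) (Or.inl (by simp)) (Or.inl (by simp))
    exact ⟨σ, τ, h, h1⟩
  · intro l m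
    obtain ⟨σ, τ, h, -, h1⟩ := flag (l + 1) l (m + 1) m (Or.inl rfl) (Or.inl rfl)
    exact ⟨σ, τ, h, h1⟩

end Pool.Agent.Results.MP_f8f7ac_co.FlagTransitive13
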