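import Pool.Agent.Results.MP_f8f7ac_co.FlagTransitive13

/-!
The cyclic configuration `(11_3)` with lines `{l, l+1, l+3}` (mod 11) is point- and
line-transitive and realizable in the Euclidean plane, and none of its realizations, in the
Euclidean plane or in the real projective plane, has a non-trivial symmetry.
-/

set_option autoImplicit false

namespace Pool.Agent.Results.MP_f8f7ac_co.Projective11

open Pool.Agent.Results.MP_f8f7ac_co.FlagTransitive13 (Plane IsConfig IsAut PointTransitive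
  LineTransitive IsRealization IsSymmetry exists_param dist_sq plane_ext mem_line_iff)

/-- A realization in the real projective plane: points are distinct one-dimensional and lines are
distinct two-dimensional subspaces of `ℝ³`, with exactly the prescribed incidences. -/
structure IsProjRealization {n : ℕ} (I : Fin n → Fin n → Prop)
    (x L : Fin n → Submodule ℝ (Fin 3 → ℝ)) : Prop where
  point_inj : Function.Injective x
  line_inj : Function.Injective L
  is_point : ∀ p, Module.finrank ℝ (x p) = 1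
  is_line : ∀ l, Module.finrank ℝ (L l) = 2
  incident : ∀ p l, x p ≤ L l ↔ I p l

/-- An invertible linear map of `ℝ³` (a collineation of the projective plane) mapping the set of
realized points onto itself and the set of realized lines onto itself. -/
structure IsProjSymmetry {n : ℕ} (x L : Fin n → Submodule ℝ (Fin 3 → ℝ))
    (T : (Fin 3 → ℝ) ≃ₗ[ℝ] (Fin 3 → ℝ)) : Prop where
  points : Submodule.map T.toLinearMap '' Set.range x = Set.range x
  lines : Submodule.map T.toLinearMap '' Set.range L = Set.range L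

/-- Incidence of the cyclic configuration. -/
def inc (p l : Fin 11) : Prop := p = l ∨ p = l + 1 ∨ p = l + 3

instance (p l : Fin 11) : Decidable (inc p l) := by unfold inc; infer_instance

/-- Three distinct points on a common line. -/
def col (a b c : Fin 11) : Bool :=
  decide (a ≠ b ∧ a ≠ c ∧ b ≠ c ∧ ∃ l, inc a l ∧ inc b l ∧ inc c l)

/-- Exhaustive search. -/
def search : Bool :=
  let U := List.finRange 11
  U.all fun s0 => U.all fun s1 => U.all fun s3 => !(col s0 s1 s3) ||
  U.all fun s2 => U.all fun s4 => !(col s1 s2 s4) ||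
  U.all fun s5 => !(col s2 s3 s5) ||
  U.all fun s6 => !(col s3 s4 s6) ||
  U.all fun s7 => !(col s4 s5 s7) ||
  U.all fun s8 => !(col s5 s6 s8) ||
  U.all fun s9 => !(col s6 s7 s9) || !(col s8 s9 s0) ||
  U.all fun s10 => !(col s7 s8 s10) || !(col s9 s10 s1) || !(col s10 s0 s2) ||
    [s1, s2, s3, s4, s5, s6, s7, s8, s9, s10] ==
      [1 + s0, 2 + s0, 3 + s0, 4 + s0, 5 + s0, 6 + s0, 7 + s0, 8 + s0, 9 + s0, 10 + s0]

theorem search_true : search = true := by decide +kernel

theorem classify : ∀ s0 s1 s3 : Fin 11, col s0 s1 s3 = true →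
    ∀ s2 s4 : Fin 11, col s1 s2 s4 = true → ∀ s5 : Fin 11, col s2 s3 s5 = true →
    ∀ s6 : Fin 11, col s3 s4 s6 = true → ∀ s7 : Fin 11, col s4 s5 s7 = true →
    ∀ s8 : Fin 11, col s5 s6 s8 = true →
    ∀ s9 : Fin 11, col s6 s7 s9 = true → col s8 s9 s0 = true →
    ∀ s10 : Fin 11, col s7 s8 s10 = true → col s9 s10 s1 = true → col s10 s0 s2 = true →
    s1 = 1 + s0 ∧ s2 = 2 + s0 ∧ s3 = 3 + s0 ∧ s4 = 4 + s0 ∧ s5 = 5 + s0 ∧ s6 = 6 + s0 ∧
      s7 = 7 + s0 ∧ s8 = 8 + s0 ∧ s9 = 9 + s0 ∧ s10 = 10 + s0 := by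
  intro s0 s1 s3 h1 s2 s4 h2 s5 h3 s6 h4 s7 h5 s8 h6 s9 h7 h8 s10 h9 h10 h11
  have H := search_true
  simp only [search, List.all_eq_true, List.mem_finRange, forall_const, Bool.or_eq_true,
    Bool.not_eq_eq_eq_not, Bool.not_true, beq_iff_eq] at H
  have H1 := (H s0 s1 s3).resolve_left (by simp [h1])
  have H2 := (H1 s2 s4).resolve_left (by simp [h2])
  have H3 := (H2 s5).resolve_left (by simp [h3])
  have H4 := (H3 s6).resolve_left (by simp [h4])
  have H5 := (H4 s7).resolve_left (by simp [h5])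
  have H6 := (H5 s8).resolve_left (by simp [h6])
  have H7 := (H6 s9).resolve_left (by simp [h7, h8])
  have H8 := (H7 s10).resolve_left (by simp [h9, h10, h11])
  simpa only [List.cons.injEq, and_true] using H8

/-- Every injective map sending lines into lines is a translation. -/
theorem shift_of_col (σ : Fin 11 → Fin 11) (hσ : Function.Injective σ)
    (h : ∀ l, ∃ m, ∀ p, inc p l → inc (σ p) m) : ∀ i, σ i = i + σ 0 := by
  have hc : ∀ a b c : Fin 11, col a b c = true → col (σ a) (σ b) (σ c) = true := by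
    intro a b c habc
    simp only [col, decide_eq_true_eq] at habc ⊢
    obtain ⟨h1, h2, h3, l, h4, h5, h6⟩ := habc
    obtain ⟨m, hm⟩ := h l
    exact ⟨hσ.ne h1, hσ.ne h2, hσ.ne h3, m, hm _ h4, hm _ h5, hm _ h6⟩
  obtain ⟨e1, e2, e3, e4, e5, e6, e7, e8, e9, e10⟩ :=
    classify (σ 0) (σ 1) (σ 3) (hc _ _ _ (by decide)) (σ 2) (σ 4) (hc _ _ _ (by decide))
      (σ 5) (hc _ _ _ (by decide)) (σ 6) (hc _ _ _ (by decide)) (σ 7) (hc _ _ _ (by decide))
      (σ 8) (hc _ _ _ (by decide)) (σ 9) (hc _ _ _ (by decide)) (hc _ _ _ (by decide))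
      (σ 10) (hc _ _ _ (by decide)) (hc _ _ _ (by decide)) (hc _ _ _ (by decide))
  intro i
  fin_cases i
  · simp
  all_goals assumption

theorem orbit : ∀ b : Fin 11, b ≠ 0 → ∀ d : Fin 11, ∃ k : Fin 11, ∀ i : Fin 11,
    (fun j => j + b)^[k.val] i = i + d := by
  decide +kernel

/-- The sum of the squared distances to 11 points takes no value three times on a line. -/
theorem not_three (x : Fin 11 → Plane) (p q : Plane) (t : ℝ) (hpq : p ≠ q)
    (h1 : ∑ j, dist q (x j) ^ 2 = ∑ j, dist p (x j) ^ 2)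
    (h2 : ∑ j, dist (p + t • (q - p)) (x j) ^ 2 = ∑ j, dist p (x j) ^ 2) : t = 0 ∨ t = 1 := by
  set u0 := q 0 - p 0 with hu0
  set u1 := q 1 - p 1 with hu1
  have hu : 0 < u0 ^ 2 + u1 ^ 2 := by
    by_contra hn
    have a0 : u0 = 0 := by nlinarith [sq_nonneg u0, sq_nonneg u1]
    have a1 : u1 = 0 := by nlinarith [sq_nonneg u0, sq_nonneg u1]
    exact hpq (plane_ext (by linarith) (by linarith))
  have key : ∀ s : ℝ, ∑ j, dist (p + s • (q - p)) (x j) ^ 2 = ∑ j, dist p (x j) ^ 2 +
      2 * s * (∑ j, ((p 0 - x j 0) * u0 + (p 1 - x j 1) * u1)) + 11 * s ^ 2 * (u0 ^ 2 + u1 ^ 2) := by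
    intro s
    have : ∀ j, dist (p + s • (q - p)) (x j) ^ 2 = dist p (x j) ^ 2 +
        2 * s * ((p 0 - x j 0) * u0 + (p 1 - x j 1) * u1) + s ^ 2 * (u0 ^ 2 + u1 ^ 2) := by
      intro j
      rw [dist_sq, dist_sq]
      simp only [PiLp.add_apply, PiLp.smul_apply, PiLp.sub_apply, smul_eq_mul]
      rw [← hu0, ← hu1]; ring
    simp only [this, Finset.sum_add_distrib, ← Finset.mul_sum, Finset.sum_const, Finset.card_univ,
      Fintype.card_fin, nsmul_eq_mul]
    push_cast
    ring
  have k1 := key 1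
  rw [one_smul, add_sub_cancel, h1] at k1
  have k2 := key t
  rw [h2] at k2
  set S := ∑ j, ((p 0 - x j 0) * u0 + (p 1 - x j 1) * u1)
  have : t * (t - 1) * (11 * (u0 ^ 2 + u1 ^ 2)) = 0 := by linear_combination t * k1 - k2
  rcases mul_eq_zero.1 this with h | h
  · rcases mul_eq_zero.1 h with h | h
    · exact Or.inl h
    · exact Or.inr (by linarith)
  · exact absurd h (by positivity)

theorem no_symmetry (x : Fin 11 → Plane) (L : Fin 11 → AffineSubspace ℝ Plane)
    (hR : IsRealization inc x L) (T : Plane → Plane) (hT : IsSymmetry x L T) : T = id := by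
  have hx : ∀ i, ∃ j, x j = T (x i) := fun i => by
    have : T (x i) ∈ Set.range x := hT.points ▸ ⟨x i, ⟨i, rfl⟩, rfl⟩
    exact this
  choose σ hσ using hx
  have hinj : Function.Injective σ := fun i j e =>
    hR.point_inj (hT.isometry.injective (by rw [← hσ, ← hσ, e]))
  have hl : ∀ l, ∃ m, ∀ p, inc p l → inc (σ p) m := fun l => by
    have : T '' (L l : Set Plane) ∈ Set.range (fun l => (L l : Set Plane)) :=
      hT.lines ▸ ⟨L l, ⟨l, rfl⟩, rfl⟩
    obtain ⟨m, hm⟩ := this
    refine ⟨m, fun p hp => (hR.incident _ _).1 ?_⟩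
    have h1 : T (x p) ∈ T '' (L l : Set Plane) := ⟨x p, (hR.incident _ _).2 hp, rfl⟩
    rw [← hm, ← hσ] at h1
    exact h1
  have haff := shift_of_col σ hinj hl
  have hg : ∀ i, ∑ j, dist (x (σ i)) (x j) ^ 2 = ∑ j, dist (x i) (x j) ^ 2 := by
    intro i
    rw [← (Equiv.ofBijective σ (Finite.injective_iff_bijective.1 hinj)).sum_comp]
    refine Finset.sum_congr rfl fun j _ => ?_
    rw [Equiv.ofBijective_apply, hσ, hσ, hT.isometry.dist_eq]
  have hg' : ∀ (n : ℕ) i, ∑ j, dist (x (σ^[n] i)) (x j) ^ 2 = ∑ j, dist (x i) (x j) ^ 2 := by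
    intro n i
    induction n with
    | zero => rfl
    | succ n ih => rw [Function.iterate_succ_apply', hg, ih]
  have hfun : σ = fun i => i + σ 0 := funext haff
  have h01 : x 0 ≠ x 1 := hR.point_inj.ne (by decide)
  have m0 : x 0 ∈ L 0 := (hR.incident _ _).2 (by decide)
  have m1 : x 1 ∈ L 0 := (hR.incident _ _).2 (by decide)
  have m3 : x 3 ∈ L 0 := (hR.incident _ _).2 (by decide)
  by_cases h0 : σ 0 = 0
  · have hid : ∀ i, T (x i) = x i := fun i => by
      rw [← hσ, haff, h0, add_zero]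
    funext y
    by_contra hne
    have hd : ∀ i, dist (T y) (x i) ^ 2 = dist y (x i) ^ 2 := fun i => by
      conv_lhs => rw [← hid i]
      rw [hT.isometry.dist_eq]
    have d0 := hd 0
    have d1 := hd 1
    have d2 := hd 2
    rw [dist_sq, dist_sq] at d0 d1 d2
    have n2 : x 2 ∉ L 0 := fun h => absurd ((hR.incident _ _).1 h) (by decide)
    apply n2
    set z0 := T y 0 - y 0 with hz0
    set z1 := T y 1 - y 1 with hz1
    have e1 : z0 * (x 1 0 - x 0 0) + z1 * (x 1 1 - x 0 1) = 0 := by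
      rw [hz0, hz1]; linear_combination (d0 - d1) / 2
    have e2 : z0 * (x 2 0 - x 0 0) + z1 * (x 2 1 - x 0 1) = 0 := by
      rw [hz0, hz1]; linear_combination (d0 - d2) / 2
    have hz : z0 ≠ 0 ∨ z1 ≠ 0 := by
      by_contra hc
      push Not at hc
      exact hne (plane_ext (by simp only [id]; linarith [hc.1]) (by simp only [id]; linarith [hc.2]))
    have det : (x 1 0 - x 0 0) * (x 2 1 - x 0 1) = (x 1 1 - x 0 1) * (x 2 0 - x 0 0) := by
      rcases hz with h | h
      · apply mul_left_cancel₀ h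
        linear_combination (x 2 1 - x 0 1) * e1 - (x 1 1 - x 0 1) * e2
      · apply mul_left_cancel₀ h
        linear_combination (x 1 0 - x 0 0) * e2 - (x 2 0 - x 0 0) * e1
    exact (affineSpan_pair_le_of_mem_of_mem m0 m1) ((mem_line_iff _ _ _ h01).2 det)
  · exfalso
    obtain ⟨m, hm⟩ := orbit (σ 0) h0 1
    obtain ⟨n, hn⟩ := orbit (σ 0) h0 3
    rw [← hfun] at hm hn
    have g1 := hg' m 0
    have g3 := hg' n 0
    rw [hm, zero_add] at g1
    rw [hn, zero_add] at g3
    obtain ⟨t, ht⟩ := exists_param (L 0) (hR.is_line 0) (x 0) (x 1) (x 3) m0 m1 m3 h01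
    rcases not_three x _ _ t h01 g1 (by rw [← ht]; exact g3) with h | h
    · rw [h, zero_smul, add_zero] at ht
      exact absurd (hR.point_inj ht) (by decide)
    · rw [h, one_smul, add_sub_cancel] at ht
      exact absurd (hR.point_inj ht) (by decide)

/-- Two independent vectors of a plane span it. -/
theorem two_span (S : Submodule ℝ (Fin 3 → ℝ)) (hS : Module.finrank ℝ S = 2)
    (u w z : Fin 3 → ℝ) (hu : u ∈ S) (hw : w ∈ S) (hz : z ∈ S) (hu0 : u ≠ 0)
    (hwu : w ∉ Submodule.span ℝ {u}) : ∃ a b : ℝ, a • u + b • w = z := by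
  have h1 : Submodule.span ℝ {u} < Submodule.span ℝ {u, w} := by
    refine lt_of_le_of_ne (Submodule.span_mono (by simp)) fun e => hwu ?_
    rw [e]
    exact Submodule.subset_span (by simp)
  have h2 : Submodule.span ℝ {u, w} ≤ S := by
    rw [Submodule.span_le]
    rintro y (rfl | rfl)
    · exact hu
    · exact hw
  have h3 := Submodule.finrank_lt_finrank_of_lt h1
  rw [finrank_span_singleton hu0] at h3
  have h4 : Submodule.span ℝ {u, w} = S :=
    Submodule.eq_of_le_of_finrank_le h2 (by omega)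
  rw [← h4] at hz
  exact Submodule.mem_span_pair.1 hz

/-- A linear map cannot shift the points of a realization by one. -/
theorem no_shift (f : Module.End ℝ (Fin 3 → ℝ)) (φ : (Fin 3 → ℝ) →ₗ[ℝ] ℝ) (w : Fin 3 → ℝ)
    (a b g : ℝ) (h3 : a • w + b • f w = (f ^ 3) w) (h11 : g • w = (f ^ 11) w)
    (p0 : φ w = 0) (p1 : φ (f w) = 0) (p2 : φ ((f ^ 2) w) ≠ 0) (ha : a ≠ 0) : False := by
  obtain ⟨c, hc⟩ : ∃ c : ℕ → ℝ, ∀ i, c i = φ ((f ^ i) w) := ⟨_, fun _ => rfl⟩
  have hrec : ∀ i, c (i + 3) = a * c i + b * c (i + 1) := by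
    intro i
    rw [hc, hc, hc, pow_add, Module.End.mul_apply, ← h3, pow_succ, Module.End.mul_apply]
    simp
  have c0 : c 0 = 0 := by rw [hc]; simpa using p0
  have c1 : c 1 = 0 := by rw [hc]; simpa using p1
  have c2 : c 2 ≠ 0 := by rw [hc]; exact p2
  have c11 : c 11 = 0 := by rw [hc, ← h11]; simp [p0]
  have c12 : c 12 = 0 := by
    rw [hc, pow_succ', Module.End.mul_apply, ← h11]; simp [p1]
  have r0 := hrec 0
  have r1 := hrec 1
  have r2 := hrec 2
  have r3 := hrec 3
  have r4 := hrec 4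
  have r5 := hrec 5
  have r6 := hrec 6
  have r7 := hrec 7
  have r8 := hrec 8
  have r9 := hrec 9
  norm_num at r0 r1 r2 r3 r4 r5 r6 r7 r8 r9
  have e11 : a * (a ^ 2 + 4 * b ^ 3) * c 2 = 0 := by
    rw [← c11, r8, r6, r5, r4, r3, r2, r1, r0, c0, c1]; ring
  have e12 : b ^ 2 * (6 * a ^ 2 + b ^ 3) * c 2 = 0 := by
    rw [← c12, r9, r7, r6, r5, r4, r3, r2, r1, r0, c0, c1]; ring
  have k1 : a ^ 2 + 4 * b ^ 3 = 0 :=
    (mul_eq_zero.1 ((mul_eq_zero.1 e11).resolve_right c2)).resolve_left ha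
  have k2 : b ^ 2 * (6 * a ^ 2 + b ^ 3) = 0 := (mul_eq_zero.1 e12).resolve_right c2
  have k3 : b ^ 5 = 0 := by linear_combination (6 * b ^ 2 * k1 - k2) / 23
  have k4 : b = 0 := pow_eq_zero_iff (by norm_num) |>.1 k3
  rw [k4] at k1
  exact ha (pow_eq_zero_iff (n := 2) (by norm_num) |>.1 (by linarith))

theorem no_proj_symmetry (x L : Fin 11 → Submodule ℝ (Fin 3 → ℝ))
    (hR : IsProjRealization inc x L) (T : (Fin 3 → ℝ) ≃ₗ[ℝ] (Fin 3 → ℝ))
    (hT : IsProjSymmetry x L T) : ∃ c : ℝ, ∀ y, T y = c • y := by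
  have hx : ∀ i, ∃ j, x j = Submodule.map T.toLinearMap (x i) := fun i => by
    have : Submodule.map T.toLinearMap (x i) ∈ Set.range x :=
      hT.points ▸ ⟨x i, ⟨i, rfl⟩, rfl⟩
    exact this
  choose σ hσ using hx
  have hinj : Function.Injective σ := fun i j e =>
    hR.point_inj (Submodule.map_injective_of_injective (f := T.toLinearMap) T.injective
      (by rw [← hσ, ← hσ, e]))
  have hl : ∀ l, ∃ m, ∀ p, inc p l → inc (σ p) m := fun l => by
    have : Submodule.map T.toLinearMap (L l) ∈ Set.range L := hT.lines ▸ ⟨L l, ⟨l, rfl⟩, rfl⟩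
    obtain ⟨m, hm⟩ := this
    refine ⟨m, fun p hp => (hR.incident _ _).1 ?_⟩
    rw [hm, hσ]
    exact Submodule.map_mono ((hR.incident _ _).2 hp)
  have haff := shift_of_col σ hinj hl
  have hspan : ∀ p y, y ∈ x p → y ≠ 0 → x p = Submodule.span ℝ {y} := fun p y h h0 =>
    eq_span_singleton_of_mem_of_finrank_eq_one (hR.is_point p) h h0
  have hnot : ∀ p q y z, p ≠ q → y ∈ x p → y ≠ 0 → z ∈ x q → z ≠ 0 →
      z ∉ Submodule.span ℝ {y} := by
    intro p q y z hpq hy hy0 hz hz0 h
    rw [← hspan p y hy hy0] at h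
    exact hpq (hR.point_inj ((hspan p z h hz0).trans (hspan q z hz hz0).symm))
  have hoff : ∀ p l y, ¬ inc p l → y ∈ x p → y ≠ 0 → y ∉ L l := by
    intro p l y h hy hy0 hL
    apply h
    rw [← hR.incident, hspan p y hy hy0, Submodule.span_le]
    rintro _ rfl
    exact hL
  have hv : ∀ p, ∃ y, y ∈ x p ∧ y ≠ 0 := fun p =>
    Submodule.exists_mem_ne_zero_of_ne_bot fun h => by
      have := hR.is_point p
      rw [h] at this
      simp at this
  have hmap : ∀ p y, y ∈ x p → T y ∈ x (σ p) := fun p y h => by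
    rw [hσ]; exact Submodule.mem_map_of_mem h
  have hon : ∀ p l y, inc p l → y ∈ x p → y ∈ L l := fun p l y h hy =>
    (hR.incident _ _).2 h hy
  by_cases h0 : σ 0 = 0
  · choose v hv hv0 using hv
    have hc : ∀ p, ∃ c : ℝ, c • v p = T (v p) := fun p => by
      have := hmap p _ (hv p)
      rw [haff, h0, add_zero, hspan p _ (hv p) (hv0 p)] at this
      exact Submodule.mem_span_singleton.1 this
    choose c hc using hc
    have ne : ∀ l : Fin 11, l ≠ l + 1 ∧ l ≠ l + 3 ∧ l + 1 ≠ l + 3 := by decide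
    have step : ∀ l : Fin 11, c (l + 1) = c l := by
      intro l
      have n1 := hnot l (l + 1) _ _ (ne l).1 (hv _) (hv0 _) (hv _) (hv0 _)
      obtain ⟨a, b, hab⟩ := two_span (L l) (hR.is_line l) (v l) (v (l + 1)) (v (l + 3))
        (hon _ _ _ (Or.inl rfl) (hv _)) (hon _ _ _ (Or.inr (Or.inl rfl)) (hv _))
        (hon _ _ _ (Or.inr (Or.inr rfl)) (hv _)) (hv0 _) n1
      have ha : a ≠ 0 := by
        rintro rfl
        apply hnot (l + 1) (l + 3) _ _ (ne l).2.2 (hv _) (hv0 _) (hv _) (hv0 _)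
        exact Submodule.mem_span_singleton.2 ⟨b, by simpa using hab⟩
      have hb : b ≠ 0 := by
        rintro rfl
        apply hnot l (l + 3) _ _ (ne l).2.1 (hv _) (hv0 _) (hv _) (hv0 _)
        exact Submodule.mem_span_singleton.2 ⟨a, by simpa using hab⟩
      have h3 := hc (l + 3)
      rw [← hab, map_add, map_smul, map_smul, ← hc, ← hc] at h3
      have h4 : (a * (c (l + 3) - c l)) • v l + (b * (c (l + 3) - c (l + 1))) • v (l + 1) = 0 := by
        rw [← sub_eq_zero] at h3
        rw [← h3]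
        module
      have hli : LinearIndependent ℝ ![v l, v (l + 1)] := by
        rw [LinearIndependent.pair_iff' (hv0 l)]
        intro t ht
        exact n1 (Submodule.mem_span_singleton.2 ⟨t, ht⟩)
      obtain ⟨z1, z2⟩ := LinearIndependent.pair_iff.1 hli _ _ h4
      have z3 := (mul_eq_zero.1 z1).resolve_left ha
      have z4 := (mul_eq_zero.1 z2).resolve_left hb
      linarith
    have s1 : c 1 = c 0 := step 0
    have s2 : c 2 = c 0 := (step 1).trans s1
    set E := LinearMap.ker (T.toLinearMap - c 0 • LinearMap.id) with hE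
    have memE : ∀ y, y ∈ E ↔ T y = c 0 • y := fun y => by
      simp [hE, sub_eq_zero]
    have hLE : L 0 ≤ E := by
      intro z hz
      obtain ⟨a, b, rfl⟩ := two_span (L 0) (hR.is_line 0) (v 0) (v 1) z
        (hon _ _ _ (by decide) (hv _)) (hon _ _ _ (by decide) (hv _)) hz (hv0 _)
        (hnot 0 1 _ _ (by decide) (hv _) (hv0 _) (hv _) (hv0 _))
      refine E.add_mem (E.smul_mem _ ?_) (E.smul_mem _ ?_)
      · rw [memE, hc]
      · rw [memE, ← s1, hc]
    have hlt : L 0 < E := by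
      refine lt_of_le_of_ne hLE fun e => hoff 2 0 _ (by decide) (hv _) (hv0 _) ?_
      rw [e, memE, ← s2, hc]
    have h3 := Submodule.finrank_lt_finrank_of_lt hlt
    rw [hR.is_line] at h3
    have h4 := Submodule.finrank_le E
    have h5 : Module.finrank ℝ (Fin 3 → ℝ) = 3 := by simp
    have htop : E = ⊤ := Submodule.eq_top_of_finrank_eq (by omega)
    exact ⟨c 0, fun y => (memE y).1 (htop ▸ Submodule.mem_top)⟩
  · exfalso
    obtain ⟨k, hk⟩ := orbit (σ 0) h0 1
    have hfun : σ = fun i => i + σ 0 := funext haff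
    rw [← hfun] at hk
    have hit : ∀ (m : ℕ) p y, y ∈ x p → y ≠ 0 →
        (T.toLinearMap ^ m) y ∈ x (σ^[m] p) ∧ (T.toLinearMap ^ m) y ≠ 0 := by
      intro m p y hy hy0
      induction m with
      | zero => exact ⟨hy, hy0⟩
      | succ m ih =>
        rw [pow_succ', Module.End.mul_apply, Function.iterate_succ_apply']
        exact ⟨hmap _ _ ih.1, fun h => ih.2 (T.map_eq_zero_iff.1 h)⟩
    obtain ⟨f, hf⟩ : ∃ f : Module.End ℝ (Fin 3 → ℝ), ∀ p y, y ∈ x p → y ≠ 0 →
        f y ∈ x (p + 1) ∧ f y ≠ 0 :=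
      ⟨T.toLinearMap ^ k.val, fun p y hy hy0 => hk p ▸ hit k p y hy hy0⟩
    obtain ⟨w, hw, hw0⟩ := hv 0
    have hpow : ∀ m : ℕ, (f ^ m) w ∈ x ((fun i => i + 1)^[m] 0) ∧ (f ^ m) w ≠ 0 := by
      intro m
      induction m with
      | zero => exact ⟨hw, hw0⟩
      | succ m ih =>
        rw [pow_succ', Module.End.mul_apply, Function.iterate_succ_apply']
        exact hf _ _ ih.1 ih.2
    have q1 : f w ∈ x 1 ∧ f w ≠ 0 := hf 0 w hw hw0
    have q2 : (f ^ 2) w ∈ x 2 ∧ (f ^ 2) w ≠ 0 := hpow 2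
    have q3 : (f ^ 3) w ∈ x 3 ∧ (f ^ 3) w ≠ 0 := hpow 3
    have q11 : (f ^ 11) w ∈ x 0 ∧ (f ^ 11) w ≠ 0 := hpow 11
    have m0 : w ∈ L 0 := hon _ _ _ (by decide) hw
    have m1 : f w ∈ L 0 := hon _ _ _ (by decide) q1.1
    obtain ⟨a, b, hab⟩ := two_span (L 0) (hR.is_line 0) w (f w) _ m0 m1
      (hon _ _ _ (by decide) q3.1) hw0 (hnot 0 1 _ _ (by decide) hw hw0 q1.1 q1.2)
    obtain ⟨φ, hφ, hker⟩ :=
      Submodule.exists_le_ker_of_notMem (hoff 2 0 _ (by decide) q2.1 q2.2)
    have h11 := q11.1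
    rw [hspan 0 w hw hw0] at h11
    obtain ⟨g, hg⟩ := Submodule.mem_span_singleton.1 h11
    refine no_shift f φ w a b g hab hg (hker m0) (hker m1) hφ ?_
    rintro rfl
    apply hnot 1 3 _ _ (by decide) q1.1 q1.2 q3.1 q3.2
    exact Submodule.mem_span_singleton.2 ⟨b, by simpa using hab⟩

/-- Integer coordinates of a realization. -/
def cx : Fin 11 → ℤ := ![36, -84, -12, -9, 36, -24, 0, 0, -12, 0, -28]
/-- Integer coordinates of a realization. -/
def cy : Fin 11 → ℤ := ![-24, 24, -12, -6, -36, -36, -12, -36, -24, -24, -8]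

/-- The realized points. -/
noncomputable def pt (i : Fin 11) : Plane := !₂[(cx i : ℝ), (cy i : ℝ)]

theorem coords_inj : ∀ i j : Fin 11, cx i = cx j → cy i = cy j → i = j := by decide +kernel

theorem coords_det : ∀ p l : Fin 11,
    (cx (l + 1) - cx l) * (cy p - cy l) = (cy (l + 1) - cy l) * (cx p - cx l) ↔ inc p l := by
  decide +kernel

theorem pt_inj : Function.Injective pt := fun i j e => by
  have h0 : (cx i : ℝ) = cx j := by simpa [pt] using congrArg (fun v : Plane => v 0) e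
  have h1 : (cy i : ℝ) = cy j := by simpa [pt] using congrArg (fun v : Plane => v 1) e
  exact coords_inj i j (by exact_mod_cast h0) (by exact_mod_cast h1)

theorem realization : IsRealization inc pt (fun l => line[ℝ, pt l, pt (l + 1)]) := by
  have ne : ∀ l : Fin 11, l ≠ l + 1 := by decide
  have hinc : ∀ p l : Fin 11, pt p ∈ line[ℝ, pt l, pt (l + 1)] ↔ inc p l := by
    intro p l
    rw [mem_line_iff _ _ _ (pt_inj.ne (ne l)), ← coords_det]
    simp only [pt, Matrix.cons_val_zero, Matrix.cons_val_one]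
    norm_cast
  refine ⟨pt_inj, ?_, ?_, hinc⟩
  · intro l m e
    have key : ∀ l m : Fin 11, (∀ p, inc p l ↔ inc p m) → l = m := by decide +kernel
    refine key l m fun p => ?_
    have e' : line[ℝ, pt l, pt (l + 1)] = line[ℝ, pt m, pt (m + 1)] := e
    rw [← hinc, ← hinc, e']
  · intro l
    rw [direction_affineSpan, vectorSpan_pair]
    exact finrank_span_singleton (vsub_ne_zero.2 (pt_inj.ne (ne l)))

theorem config : IsConfig inc := by
  refine ⟨fun p => ?_, fun l => ?_, by decide +kernel⟩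
  · have : {l | inc p l} = ↑(Finset.univ.filter fun l => inc p l) := by simp
    rw [this, Set.ncard_coe_finset]
    clear this
    revert p; decide +kernel
  · have : {p | inc p l} = ↑(Finset.univ.filter fun p => inc p l) := by simp
    rw [this, Set.ncard_coe_finset]
    clear this
    revert l; decide +kernel

theorem result : ∃ (n : ℕ) (I : Fin n → Fin n → Prop), IsConfig I ∧
    PointTransitive I ∧ LineTransitive I ∧ (∃ x L, IsRealization I x L) ∧
    (∀ x L, IsRealization I x L → ∀ T, IsSymmetry x L T → T = id) ∧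
    ∀ x L, IsProjRealization I x L → ∀ T, IsProjSymmetry x L T → ∃ c : ℝ, ∀ y, T y = c • y := by
  have key : ∀ b p l : Fin 11, inc (p + b) (l + b) ↔ inc p l := by decide +kernel
  refine ⟨11, inc, config, ?_, ?_, ⟨_, _, realization⟩, no_symmetry, no_proj_symmetry⟩
  · intro p q
    exact ⟨Equiv.addRight (q - p), Equiv.addRight (q - p), fun _ _ => key _ _ _, by simp⟩
  · intro p q
    exact ⟨Equiv.addRight (q - p), Equiv.addRight (q - p), fun _ _ => key _ _ _, by simp⟩

end Pool.Agent.Results.MP_f8f7ac_co.Projective11
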